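import Pool.Agent.W798.KF.Stm

/-!
# KF-LI: the linear inequalities (helper359)
-/

set_option autoImplicit false

namespace Pool.Agent.W359.KF

open Pool.Agent.W798.KF

/-- The defects of the diagonal terms. -/
theorem decE (x y : ℕ → ℝ) (n c : ℝ)
    (h : ∀ i i' : ℕ, 3 * n + x i + y i' ≤ c + 2 * x (i + 1) + 2 * y (i' + 1)) (k : ℕ) :
    2 ^ k * (3 * n - x (k + 1) - y (k + 1)) ≤ (3 * n - x 1 - y 1) + (2 ^ k - 1) * c := by
  induction k with
  | zero => simp
  | succ k ih =>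
    have h1 := h (k + 1) (k + 1)
    have hT : (0 : ℝ) < 2 ^ k := by positivity
    have h2 : 2 * (3 * n - x (k + 1 + 1) - y (k + 1 + 1)) ≤
        (3 * n - x (k + 1) - y (k + 1)) + c := by linarith
    have h3 := mul_le_mul_of_nonneg_left h2 hT.le
    rw [pow_succ]
    linarith

/-- The defects of the other terms. -/
theorem decD (x y : ℕ → ℝ) (n c : ℝ)
    (h : ∀ i i' : ℕ, 3 * n + x i + y i' ≤ c + 2 * x (i + 1) + 2 * y (i' + 1)) (k : ℕ) :
    2 ^ k * (3 * n - x (k + 2) - y (k + 1)) ≤ (3 * n - x 2 - y 1) + (2 ^ k - 1) * c := by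
  induction k with
  | zero => simp
  | succ k ih =>
    have h1 := h (k + 2) (k + 1)
    have hT : (0 : ℝ) < 2 ^ k := by positivity
    have h2 : 2 * (3 * n - x (k + 1 + 2) - y (k + 1 + 1)) ≤
        (3 * n - x (k + 2) - y (k + 1)) + c := by
      have e : k + 1 + 2 = k + 2 + 1 := by ring
      rw [e]
      linarith
    have h3 := mul_le_mul_of_nonneg_left h2 hT.le
    rw [pow_succ]
    linarith

/-- Lower bound for `x (k + 2)`. -/
theorem lowX (x y : ℕ → ℝ) (n c : ℝ) (hc : 0 ≤ c)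
    (h : ∀ i i' : ℕ, 3 * n + x i + y i' ≤ c + 2 * x (i + 1) + 2 * y (i' + 1)) (k : ℕ) :
    2 ^ k * x 2 + 2 ^ k * (2 * 2 ^ k - 2) * (3 * n - x (k + 2) - y (k + 2)) -
      (2 ^ k - 1) * (3 * n - x 2 - y 1) - 2 ^ k * (2 * 2 ^ k - 2) * c ≤ 2 ^ k * x (k + 2) := by
  induction k with
  | zero => simp
  | succ k ih =>
    have hd := decD x y n c h (k + 1)
    have h1 := h (k + 2) (k + 2)
    have hT : (1 : ℝ) ≤ 2 ^ k := one_le_pow₀ (by norm_num)
    have e3 : k + 1 + 2 = k + 3 := by ring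
    have e4 : k + 1 + 1 = k + 2 := by ring
    rw [e3, e4] at hd
    rw [e3]
    have h2 : 2 * (3 * n - x (k + 3) - y (k + 3)) ≤ (3 * n - x (k + 2) - y (k + 2)) + c := by
      have e : k + 3 = k + 2 + 1 := by ring
      rw [e]
      linarith
    rw [pow_succ] at hd ⊢
    set T : ℝ := 2 ^ k with hTdef
    have h3 := mul_le_mul_of_nonneg_left h2 (by nlinarith : (0 : ℝ) ≤ 4 * T ^ 2 - 2 * T)
    nlinarith

theorem li : S_LI := by
  intro j
  refine ⟨1, zero_le_one, ?_⟩
  intro x y n c E hc hE hST h2 h3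
  rcases j with _ | k
  · have e0 : ex 0 = 226 / 169 := by
      unfold ex; norm_num
    rw [e0]
    have h4 := le_max_left (x (0 + 1)) (y (0 + 1))
    have h5 := le_max_right (x (0 + 1)) (y (0 + 1))
    set m := max (x (0 + 1)) (y (0 + 1))
    rw [zero_add] at h4 h5
    linarith
  · have hD := decE x y n c hST (k + 1)
    have hR := lowX x y n c hc hST k
    have h4 := le_max_left (x (k + 1 + 1)) (y (k + 1 + 1))
    have h5 := le_max_right (x (k + 1 + 1)) (y (k + 1 + 1))
    have e4 : k + 1 + 1 = k + 2 := by ring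
    rw [e4] at hD h4 h5 ⊢
    set m := max (x (k + 2)) (y (k + 2))
    have hT : (1 : ℝ) ≤ 2 ^ k := one_le_pow₀ (by norm_num)
    unfold ex
    have epow : (2 : ℝ) ^ (k + 1) = 2 ^ k * 2 := pow_succ 2 k
    rw [epow] at hD ⊢
    set T : ℝ := 2 ^ k with hTdef
    set t : ℝ := T * 2 with ht
    have ht2 : 2 ≤ t := by rw [ht]; linarith
    have hTt : T = t / 2 := by rw [ht]; ring
    rw [hTt] at hR
    set e : ℝ := 3 * n - x (k + 2) - y (k + 2) with he
    have hem : 3 * n - 2 * m ≤ e := by rw [he]; linarith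
    -- D'
    have hD' : t * (3 * n - 2 * m) ≤ (3 * n - x 1 - y 1) + (t - 1) * c :=
      (mul_le_mul_of_nonneg_left hem (by linarith)).trans hD
    -- R'
    have hR1 : t * x 2 + t * (t - 2) * e - (t - 2) * (3 * n - x 2 - y 1) - t * (t - 2) * c ≤
        t * x (k + 2) := by nlinarith
    have hR2 : t * (t - 2) * (3 * n - 2 * m) ≤ t * (t - 2) * e :=
      mul_le_mul_of_nonneg_left hem (mul_nonneg (by linarith) (by linarith))
    have hR3 : t * x (k + 2) ≤ t * m := mul_le_mul_of_nonneg_left h4 (by linarith)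
    have hR' : t * x 2 + t * (t - 2) * (3 * n - 2 * m) - (t - 2) * (3 * n - x 2 - y 1) -
        t * (t - 2) * c ≤ t * m := by linarith
    have g1 := mul_le_mul_of_nonneg_left hD' (by linarith : (0 : ℝ) ≤ 1484 * t - 454)
    have g2 := mul_le_mul_of_nonneg_left hR' (by norm_num : (0 : ℝ) ≤ 370)
    have g3 := mul_le_mul_of_nonneg_left h2 (by linarith : (0 : ℝ) ≤ 37 * (2 * t - 2))
    have g4 := mul_le_mul_of_nonneg_left h3 (by linarith : (0 : ℝ) ≤ 18 * t - 8)
    have hden : 0 < t * (1854 * t - 1009) := mul_pos (by linarith) (by linarith)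
    rw [div_mul_eq_mul_div, div_le_iff₀ hden]
    have g5 : 0 ≤ (3708 * t ^ 2 - 2018 * t - (1854 * t ^ 2 - 1194 * t)) * c :=
      mul_nonneg (by nlinarith) hc
    have g6 : 0 ≤ (3708 * t ^ 2 - 2018 * t - (92 * t - 82)) * E :=
      mul_nonneg (by nlinarith) hE
    have g7 : 0 ≤ (1484 * t - 454) * c := mul_nonneg (by linarith) hc
    nlinarith

end Pool.Agent.W359.KF
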